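import Pool.Agent.U924.Par.Step

/-!
# The limit of the construction
-/

open MeasureTheory Set Filter Topology

namespace Pool.Agent.U924.Par

open Q66.Iet

/-- a stage of the construction -/
structure Sg (α : ℝ) where
  B : ℝ → SL2
  β : ℝ
  u : ℝ
  β0 : 0 ≤ β
  βu : β < u
  u1 : u ≤ 1 / 8
  orb : ∃ (k : ℕ) (l : ℤ), β = k * α - l
  meas : MeasSL B
  per : ∀ x, B (x + 1) = B x
  rlc : RLC B
  coh : ∀ x, B (x + α) * L1 ^ mm x * (B x)⁻¹ = if Int.fract x < β then P3 * L1 else L1 ^ mm x

theorem mm_small {x : ℝ} (h : Int.fract x < 1 / 2) : mm x = 1 := by unfold mm; rw [if_pos h]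

/-- one step of the construction -/
theorem stepSg {α : ℝ} (hirr : Irrational α) (hα : GoodA α) (s : Sg α) (e : ℝ) {η : ℝ}
    (hη : 0 < η) :
    ∃ s' : Sg α, s.β < s'.β ∧ s'.u < s.u ∧ (e ≤ s'.β ∨ s'.u ≤ e) ∧
      μ {x | s'.B x ≠ s.B x} ≤ ENNReal.ofReal η := by
  obtain ⟨k, l, hkl⟩ := s.orb
  obtain ⟨c, hc0, hgap⟩ := gap hirr (2 * k)
  set w := s.β with hw
  have hr := s.rlc (w + α)
  obtain ⟨δ', hδ', hδ⟩ := mem_nhdsGE_iff_exists_Ico_subset.1 hr
  have hδ'' : w + α < δ' := hδ'
  set δ := δ' - (w + α) with hδdef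
  have hδ0 : 0 < δ := by linarith
  have hβu := s.βu
  have hu1 := s.u1
  have hβ0 := s.β0
  rw [← hw] at hβu hβ0
  set ε := min (δ / 3) (min ((s.u - w) / 3) (min (1 / 11) (min (η / 4) (c / 10)))) with hε
  have hε0 : 0 < ε := by
    rw [hε]
    refine lt_min (by linarith) (lt_min (by linarith) (lt_min (by norm_num)
      (lt_min (by linarith) (by linarith))))
  have hε1 : ε ≤ δ / 3 := min_le_left _ _
  have hε2 : ε ≤ (s.u - w) / 3 := (min_le_right _ _).trans (min_le_left _ _)
  have hε3 : ε ≤ 1 / 11 := (min_le_right _ _).trans ((min_le_right _ _).trans (min_le_left _ _))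
  have hε4 : ε ≤ η / 4 := (min_le_right _ _).trans ((min_le_right _ _).trans
    ((min_le_right _ _).trans (min_le_left _ _)))
  have hε5 : ε ≤ c / 10 := (min_le_right _ _).trans ((min_le_right _ _).trans
    ((min_le_right _ _).trans (min_le_right _ _)))
  obtain ⟨N, p, hN, h4N, hcop, hθ, hθε⟩ := hα ε hε0
  set θ := N * α - p with hθdef
  have hNα : N * α = p + θ := by rw [hθdef]; ring
  have hN' : (1 : ℝ) ≤ N := by exact_mod_cast hN
  have hNθ : N * θ < ε := by
    rw [lt_div_iff₀ (by linarith)] at hθε; linarith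
  have hθε' : θ < ε := by nlinarith
  have h11 : 11 * (N : ℝ) * θ ≤ 1 := by nlinarith
  set b' := s.B (w + α) with hb'
  set g : SL2 := b'⁻¹ * P3 * b' with hg
  have hg3 : g ^ 3 = 1 := by
    have : g ^ 3 = b'⁻¹ * P3 ^ 3 * b' := by
      rw [hg, pow_succ, pow_two, pow_succ, pow_two]; group
    rw [this, P3_cube]; group
  have hsep : ∀ j : ℕ, 0 < j → j < N → ∀ m : ℤ, 3 * θ ≤ |j * α - m| := by
    intro j h1 h2 m
    have := sep10 hcop hθ h11 hNα h1 h2 m
    linarith
  obtain ⟨M, hM2⟩ : ∃ M, N = 2 * M := by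
    obtain ⟨r, hr⟩ := h4N
    exact ⟨2 * r, by omega⟩
  have hM0 : 0 < M := by omega
  have hS : ∀ x, vp α w 0 x < 2 * θ → SS α N (x + α) = 0 := by
    intro x hx
    rw [hkl] at hx
    rw [hM2]
    rw [hM2] at hcop h11 hNα
    exact SS_window hcop hθ hM0 h11 hNα (by linarith) hgap hx
  have hid := step_id' (α := α) (w := w) (a := L1) (g := g) (p := (p : ℤ)) hN hg3 hθ
    (by linarith) (by push_cast; exact hNα) hsep hS
  -- position in the window
  have hv0 : ∀ x, (vp α w 0 x < 3 * θ ↔ w ≤ Int.fract x ∧ Int.fract x < w + 3 * θ) := by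
    intro x
    have h0 : vp α w 0 x = Int.fract (Int.fract x - w) := by
      unfold vp
      have : x - w - ((0 : ℕ) : ℝ) * α = (Int.fract x - w) + (⌊x⌋ : ℤ) := by
        rw [← Int.self_sub_floor]; push_cast; ring
      rw [this, Int.fract_add_intCast]
    have f0 := Int.fract_nonneg x
    have f1 := Int.fract_lt_one x
    rw [h0]
    by_cases hwx : w ≤ Int.fract x
    · rw [Int.fract_eq_self.2 ⟨by linarith, by linarith⟩]
      constructor
      · intro h; exact ⟨hwx, by linarith⟩
      · intro h; linarith [h.2]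
    · push Not at hwx
      have h2 : Int.fract (Int.fract x - w) = Int.fract x - w + 1 := by
        rw [← Int.fract_add_one, Int.fract_eq_self.2 ⟨by linarith, by linarith⟩]
      rw [h2]
      constructor
      · intro h; exfalso; linarith
      · intro h; linarith [h.1]
  set C := KK α w θ L1 g N with hC
  set β' := w + 3 * θ with hβ'
  have hβ'u : β' < s.u := by rw [hβ']; linarith
  set u' := if e ≤ β' then (β' + s.u) / 2 else min ((β' + s.u) / 2) e with hu'
  have hu'1 : β' < u' := by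
    rw [hu']
    split_ifs with h
    · linarith
    · exact lt_min (by linarith) (not_le.1 h)
  have hu'2 : u' < s.u := by
    rw [hu']
    split_ifs with h
    · linarith
    · exact (min_le_left _ _).trans_lt (by linarith)
  have hB' : ∀ x, w ≤ Int.fract x → Int.fract x < w + 3 * θ → s.B (x + α) = b' := by
    intro x h1 h2
    have h3 : s.B (x + α) = s.B (Int.fract x + α) := by
      have : x + α = (Int.fract x + α) + (⌊x⌋ : ℤ) := by
        rw [← Int.self_sub_floor]; ring
      rw [this, per_int s.per]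
    rw [h3]
    exact hδ ⟨by linarith, by linarith⟩
  refine ⟨⟨fun x => s.B x * C x, β', u', by linarith, hu'1, by linarith,
    ⟨k + 3 * N, l + 3 * p, by rw [hβ', hkl, hθdef]; push_cast; ring⟩,
    s.meas.mul (measSL_KK _ _ _ _ _ _), ?_, ?_, ?_⟩, ?_, hu'2, ?_, ?_⟩
  · intro x
    show s.B (x + 1) * C (x + 1) = _
    rw [s.per, hC, KK_per]
  · intro x
    filter_upwards [s.rlc x, rlc_KK α w θ L1 g N x] with y h1 h2
    show s.B y * C y = s.B x * C x
    rw [h1, hC, h2]
  · intro x
    show s.B (x + α) * C (x + α) * L1 ^ mm x * (s.B x * C x)⁻¹ = _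
    have e1 : s.B (x + α) * C (x + α) * L1 ^ mm x * (s.B x * C x)⁻¹ =
        s.B (x + α) * (C (x + α) * L1 ^ mm x * (C x)⁻¹) * (s.B x)⁻¹ := by group
    rw [e1, hC, hid x]
    by_cases h1 : vp α w 0 x < 3 * θ
    · rw [if_pos h1]
      obtain ⟨h2, h3⟩ := (hv0 x).1 h1
      have hm1 : mm x = 1 := mm_small (by linarith)
      have h4 := s.coh x
      rw [if_neg (by rw [← hw]; exact not_lt.2 h2)] at h4
      rw [if_pos h3]
      have h5 := hB' x h2 h3
      rw [h5, hm1, zpow_one] at h4
      rw [h5, hm1, zpow_one]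
      calc b' * (g * L1) * (s.B x)⁻¹ = P3 * (b' * L1 * (s.B x)⁻¹) := by rw [hg]; group
        _ = P3 * L1 := by rw [h4]
    · rw [if_neg h1, one_mul, s.coh x]
      have h2 := (not_congr (hv0 x)).1 h1
      by_cases h3 : Int.fract x < w
      · rw [if_pos (by rw [← hw]; exact h3), if_pos (by linarith)]
      · rw [if_neg (by rw [← hw]; exact h3), if_neg]
        intro h4
        exact h2 ⟨not_lt.1 h3, h4⟩
  · show w < β'
    linarith
  · show e ≤ β' ∨ u' ≤ e
    by_cases h : e ≤ β'
    · left; exact h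
    · right
      rw [hu', if_neg h]
      exact min_le_right _ _
  · have hsub : {x | (fun x => s.B x * C x) x ≠ s.B x} ⊆ {x | KK α w θ L1 g N x ≠ 1} := by
      intro x hx h1
      apply hx
      show s.B x * C x = s.B x
      rw [hC, h1, mul_one]
    refine (measure_mono hsub).trans ((mu_KK hθ L1 g N).trans ?_)
    exact ENNReal.ofReal_le_ofReal (by nlinarith)

/-- the initial stage -/
noncomputable def sg0 (α : ℝ) : Sg α where
  B := fun _ => 1
  β := 0
  u := 1 / 8
  β0 := le_rfl
  βu := by norm_num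
  u1 := le_rfl
  orb := ⟨0, 0, by simp⟩
  meas := measSL_const 1
  per := fun _ => rfl
  rlc := fun _ => Eventually.of_forall fun _ => rfl
  coh := fun x => by
    rw [if_neg (not_lt.2 (Int.fract_nonneg x))]
    simp

/-- the sequence of stages -/
noncomputable def sq' {α : ℝ} (hirr : Irrational α) (hα : GoodA α) (e : ℕ → ℝ) : ℕ → Sg α
  | 0 => sg0 α
  | n + 1 => (stepSg hirr hα (sq' hirr hα e n) (e n) (η := (1 / 2) ^ n) (by positivity)).choose

theorem sq'_spec {α : ℝ} (hirr : Irrational α) (hα : GoodA α) (e : ℕ → ℝ) (n : ℕ) :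
    (sq' hirr hα e n).β < (sq' hirr hα e (n + 1)).β ∧
      (sq' hirr hα e (n + 1)).u < (sq' hirr hα e n).u ∧
      (e n ≤ (sq' hirr hα e (n + 1)).β ∨ (sq' hirr hα e (n + 1)).u ≤ e n) ∧
      μ {x | (sq' hirr hα e (n + 1)).B x ≠ (sq' hirr hα e n).B x} ≤
        ENNReal.ofReal ((1 / 2) ^ n) :=
  (stepSg hirr hα (sq' hirr hα e n) (e n) (η := (1 / 2) ^ n) (by positivity)).choose_spec

theorem limitSg {α : ℝ} (hirr : Irrational α) (hα : GoodA α)
    (hmp : MeasurePreserving (fun x => Int.fract (x + α)) μ μ) (e : ℕ → ℝ) :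
    ∃ (B : ℝ → SL2) (β : ℝ), MeasSL B ∧ 0 < β ∧ β < 1 / 8 ∧ (∀ n, β ≠ e n) ∧
      ∀ᵐ x ∂μ, B (Int.fract (x + α)) * L1 ^ mm x * (B x)⁻¹ =
        if x < β then P3 * L1 else L1 ^ mm x := by
  classical
  set s := sq' hirr hα e with hs
  have hsp := sq'_spec hirr hα e
  rw [← hs] at hsp
  have hβm : StrictMono fun n => (s n).β := strictMono_nat_of_lt_succ fun n => (hsp n).1
  have hum : StrictAnti fun n => (s n).u := strictAnti_nat_of_succ_lt fun n => (hsp n).2.1
  have hβu : ∀ m n, (s m).β < (s n).u := by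
    intro m n
    rcases le_total m n with h | h
    · exact (hβm.monotone h).trans_lt (s n).βu
    · exact (s m).βu.trans_le (hum.antitone h)
  have hbdd : BddAbove (range fun n => (s n).β) := ⟨(s 0).u, by rintro _ ⟨m, rfl⟩; exact (hβu m 0).le⟩
  set β := ⨆ n, (s n).β with hβ
  have hβ1 : ∀ n, (s n).β < β := fun n => (hβm (Nat.lt_succ_self n)).trans_le
    (le_ciSup hbdd (n + 1))
  have hβ2 : ∀ n, β < (s n).u := fun n => (ciSup_le fun m => (hβu m (n + 1)).le).trans_lt
    (hum (Nat.lt_succ_self n))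
  -- eventual constancy
  have hsum : ∑' n, μ {x | (s (n + 1)).B x ≠ (s n).B x} ≠ ⊤ := by
    refine ne_top_of_le_ne_top ?_ (ENNReal.tsum_le_tsum fun n => (hsp n).2.2.2)
    rw [← ENNReal.ofReal_tsum_of_nonneg (fun n => by positivity) summable_geometric_two]
    exact ENNReal.ofReal_ne_top
  have hev : ∀ᵐ x ∂μ, ∀ᶠ n in atTop, (s (n + 1)).B x = (s n).B x := by
    have := ae_eventually_notMem hsum
    filter_upwards [this] with x hx
    filter_upwards [hx] with n hn
    by_contra h
    exact hn h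
  let E : ℝ → ℕ → Prop := fun x m => ∀ n, m ≤ n → (s (n + 1)).B x = (s n).B x
  have hevE : ∀ᵐ x ∂μ, ∃ m, E x m := by
    filter_upwards [hev] with x hx
    exact eventually_atTop.1 hx
  have hE_eq : ∀ x m, E x m → ∀ n, m ≤ n → (s n).B x = (s m).B x := by
    intro x m h n hn
    induction n, hn using Nat.le_induction with
    | base => rfl
    | succ n hn ih => rw [h n hn, ih]
  have hmeasEq : ∀ n, MeasurableSet {x | (s (n + 1)).B x = (s n).B x} := by
    intro n
    have e1 : {x | (s (n + 1)).B x = (s n).B x} =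
        ⋂ i : Fin 2, ⋂ j : Fin 2, {x | ((s (n + 1)).B x).1 i j = ((s n).B x).1 i j} := by
      ext x
      simp only [mem_iInter, mem_ofPred_eq]
      constructor
      · intro h i j; rw [h]
      · intro h; apply Subtype.ext; ext i j; exact h i j
    rw [e1]
    refine MeasurableSet.iInter fun i => MeasurableSet.iInter fun j => ?_
    exact measurableSet_eq_fun ((s (n + 1)).meas i j) ((s n).meas i j)
  have hmeasE : ∀ m, MeasurableSet {x | E x m} := by
    intro m
    have e1 : {x | E x m} = ⋂ n, {x | m ≤ n → (s (n + 1)).B x = (s n).B x} := by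
      ext x; simp [E]
    rw [e1]
    refine MeasurableSet.iInter fun n => ?_
    by_cases h : m ≤ n
    · simpa [h] using hmeasEq n
    · simp [h]
  -- the index from which on the sequence is constant
  let p : ℝ → ℕ → Prop := fun x m => E x m ∨ ∀ k, ¬ E x k
  have hp : ∀ x, ∃ m, p x m := by
    intro x
    by_cases h : ∃ m, E x m
    · obtain ⟨m, hm⟩ := h; exact ⟨m, Or.inl hm⟩
    · push Not at h; exact ⟨0, Or.inr h⟩
  have hpm : ∀ m, MeasurableSet {x | p x m} := by
    intro m
    have e1 : {x | p x m} = {x | E x m} ∪ ⋂ k, {x | E x k}ᶜ := by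
      ext x; simp [p]
    rw [e1]
    exact (hmeasE m).union (MeasurableSet.iInter fun k => (hmeasE k).compl)
  have hfind : Measurable fun x => Nat.find (hp x) := measurable_find hp hpm
  let B : ℝ → SL2 := fun x => (s (Nat.find (hp x))).B x
  have hBm : MeasSL B := by
    intro i j
    have h1 : Measurable (fun q : ℕ × ℝ => ((s q.1).B q.2).1 i j) :=
      measurable_from_prod_countable_right fun n => (s n).meas i j
    exact h1.comp (hfind.prodMk measurable_id)
  have hBE : ∀ x, (∃ m, E x m) → ∃ m, ∀ n, m ≤ n → (s n).B x = B x := by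
    intro x ⟨m, hm⟩
    have h1 := Nat.find_spec (hp x)
    have h2 : E x (Nat.find (hp x)) := by
      rcases h1 with h | h
      · exact h
      · exact absurd hm (h m)
    exact ⟨_, hE_eq x _ h2⟩
  refine ⟨B, β, hBm, (s 0).β0.trans_lt (hβ1 0), (hβ2 0).trans_le (s 0).u1, ?_, ?_⟩
  · intro n h
    rcases (hsp n).2.2.1 with h1 | h1
    · have := hβ1 (n + 1); rw [h] at this; linarith
    · have := hβ2 (n + 1); rw [h] at this; linarith
  · have h1 := hmp.quasiMeasurePreserving.ae hevE
    have h2 : ∀ᵐ x ∂μ, x ∈ Ico (0 : ℝ) 1 := by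
      unfold μ; exact ae_restrict_mem measurableSet_Ico
    filter_upwards [hevE, h1, h2] with x hx hx' hx01
    obtain ⟨m1, hm1⟩ := hBE x hx
    obtain ⟨m2, hm2⟩ := hBE _ hx'
    -- the stage where the window decision is final
    obtain ⟨m3, hm3⟩ : ∃ m3, ∀ n, m3 ≤ n → (x < (s n).β ↔ x < β) := by
      by_cases hxβ : x < β
      · obtain ⟨k, hk⟩ := exists_lt_of_lt_ciSup hxβ
        refine ⟨k, fun n hn => ⟨fun _ => hxβ, fun _ => hk.trans_le (hβm.monotone hn)⟩⟩
      · exact ⟨0, fun n _ => ⟨fun h => h.trans (hβ1 n), fun h => absurd h hxβ⟩⟩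
    set n := max m1 (max m2 m3) with hn
    have e1 := hm1 n (le_max_left _ _)
    have e2 := hm2 n ((le_max_left _ _).trans (le_max_right _ _))
    have e3 := hm3 n ((le_max_right _ _).trans (le_max_right _ _))
    have h3 := (s n).coh x
    rw [Int.fract_eq_self.2 ⟨hx01.1, hx01.2⟩] at h3
    rw [← e1, ← e2]
    have e4 : (s n).B (Int.fract (x + α)) = (s n).B (x + α) := by
      have : x + α = Int.fract (x + α) + (⌊x + α⌋ : ℤ) := by
        rw [← Int.self_sub_floor]; ring
      conv_rhs => rw [this]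
      rw [per_int (s n).per]
    rw [e4, h3]
    by_cases hxβ : x < β
    · rw [if_pos hxβ, if_pos (e3.2 hxβ)]
    · rw [if_neg hxβ, if_neg (fun h => hxβ (e3.1 h))]

end Pool.Agent.U924.Par
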