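import Pool.Agent.U924.Par.Lim

/-!
# The example of parabolic type
-/

open MeasureTheory Set Filter Topology

namespace Pool.Agent.U924.Par

open Q66.Iet

theorem coe_L1 : L1.1 = !![1, 1; 0, 1] := rfl

theorem coe_L1_inv : (L1⁻¹).1 = !![1, -1; 0, 1] := by
  rw [Matrix.SpecialLinearGroup.coe_inv]
  ext i j
  fin_cases i <;> fin_cases j <;> simp [L1, Matrix.adjugate_fin_two]

theorem coe_L1_zpow_mm (x : ℝ) : (L1 ^ mm x).1 = !![1, (mm x : ℝ); 0, 1] := by
  unfold mm
  split_ifs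
  · rw [zpow_one, coe_L1]; simp
  · rw [zpow_neg, zpow_one, coe_L1_inv]; simp

theorem coe_P3L1 : (P3 * L1).1 = !![-1, 0; -1, -1] := by
  have : (P3 * L1).1 = P3.1 * L1.1 := rfl
  rw [this, P3_coe]
  ext i j
  fin_cases i <;> fin_cases j <;> simp [L1, Matrix.mul_apply, Fin.sum_univ_two]

theorem mu_univ : μ univ = 1 := by
  unfold μ
  rw [Measure.restrict_apply_univ, Real.volume_Ico]
  simp

theorem not_ae_false (h : ∀ᵐ _x : ℝ ∂μ, False) : False := by
  have h1 : μ {x : ℝ | ¬ False} = 0 := h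
  have h2 : {x : ℝ | ¬ False} = univ := by ext; simp
  rw [h2, mu_univ] at h1
  exact one_ne_zero h1

theorem anti_zero {α : ℝ} (hα : Irrational α)
    (hmp : MeasurePreserving (fun x => Int.fract (x + α)) μ μ) {F : ℝ → ℝ} (hF : Measurable F)
    (h : ∀ᵐ x ∂μ, F (Int.fract (x + α)) = -F x) : ∀ᵐ x ∂μ, F x = 0 := by
  have h2 := hmp.quasiMeasurePreserving.ae h
  have hirr : Irrational (α + α) := by
    rw [← two_mul]
    exact_mod_cast hα.natCast_mul (m := 2) (by norm_num)
  have hS : MeasurableSet {x | 0 < F x} := measurableSet_lt measurable_const hF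
  have hinv : ∀ᵐ x ∂μ, (x ∈ {x | 0 < F x} ↔ Int.fract (x + (α + α)) ∈ {x | 0 < F x}) := by
    filter_upwards [h, h2] with x e1 e2
    have e3 : Int.fract (Int.fract (x + α) + α) = Int.fract (x + (α + α)) := by
      have : Int.fract (x + α) + α = (x + (α + α)) - (⌊x + α⌋ : ℤ) := by
        rw [← Int.self_sub_floor]; ring
      rw [this, Int.fract_sub_intCast]
    rw [e3, e1, neg_neg] at e2
    show 0 < F x ↔ 0 < F (Int.fract (x + (α + α)))
    rw [e2]
  rcases rot_ae hirr hS hinv with h3 | h3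
  · exfalso
    apply not_ae_false
    filter_upwards [h, h3, hmp.quasiMeasurePreserving.ae h3] with x e1 e2 e3
    have e2' : 0 < F x := e2
    have e3' : 0 < F (Int.fract (x + α)) := e3
    rw [e1] at e3'
    linarith
  · filter_upwards [h, h3, hmp.quasiMeasurePreserving.ae h3] with x e1 e2 e3
    have e2' : ¬ 0 < F x := e2
    have e3' : ¬ 0 < F (Int.fract (x + α)) := e3
    rw [e1] at e3'
    linarith

theorem rotI_ergodic {α : ℝ} (h0 : 0 < α) (h1 : α < 1) (hα : Irrational α) :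
    Ergodic (rotI α) μ := by
  refine ⟨(rotI_isIET h0 h1).measurePreserving (meas_rotI α), ⟨?_⟩⟩
  intro S hS hinv
  rw [eventuallyConst_set]
  have h : ∀ᵐ x ∂μ, (x ∈ S ↔ Int.fract (x + α) ∈ S) := by
    filter_upwards [ae_mem] with x hx
    rw [← rotI_fract h0 h1 hx]
    have : x ∈ rotI α ⁻¹' S ↔ x ∈ S := by rw [hinv]
    exact this.symm
  exact rot_ae hα hS h

/-- the rotation as an exchange of four intervals -/
theorem rotI_isIET4 {α β : ℝ} (h0 : 1 / 2 < α) (h1 : α < 3 / 4) (hβ0 : 0 < β) (hβ1 : β < 1 / 8) :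
    IsIET 4 ![0, β, 1 - α, 1 / 2, 1] (rotI α) := by
  refine ⟨by norm_num, rfl, rfl, ?_, ?_, (rotI_isIET (by linarith) (by linarith)).bij⟩
  · rw [Fin.strictMono_iff_lt_succ]
    intro i
    fin_cases i
    · show (0 : ℝ) < β; exact hβ0
    · show β < 1 - α; linarith
    · show 1 - α < 1 / 2; linarith
    · show (1 / 2 : ℝ) < 1; norm_num
  · intro j
    fin_cases j
    · refine ⟨α, fun x hx => ?_⟩
      have h : x < β := hx.2
      unfold rotI; rw [if_pos (by linarith)]
    · refine ⟨α, fun x hx => ?_⟩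
      have h : x < 1 - α := hx.2
      unfold rotI; rw [if_pos h]
    · refine ⟨-(1 - α), fun x hx => ?_⟩
      have h : 1 - α ≤ x := hx.1
      unfold rotI; rw [if_neg (not_lt.2 h)]; ring
    · refine ⟨-(1 - α), fun x hx => ?_⟩
      have h : 1 / 2 ≤ x := hx.1
      unfold rotI; rw [if_neg (by linarith)]; ring

/-- the cocycle: `P3 * L1` on `[0,β)`, `L1` on `[β,1/2)` and `L1⁻¹` on `[1/2,1)` -/
noncomputable def rho (β x : ℝ) : SL2 := if x < β then P3 * L1 else if x < 1 / 2 then L1 else L1⁻¹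

theorem rho_eq {β x : ℝ} (hx : x ∈ Ico (0 : ℝ) 1) :
    (if x < β then P3 * L1 else L1 ^ mm x) = rho β x := by
  unfold rho mm
  rw [Int.fract_eq_self.2 ⟨hx.1, hx.2⟩]
  split_ifs <;> simp

/-- parabolic type -/
theorem parabolic {α β : ℝ} (h0 : 0 < α) (h1 : α < 1) {B : ℝ → SL2} (hB : MeasSL B)
    (hco : ∀ᵐ x ∂μ, B (Int.fract (x + α)) * L1 ^ mm x * (B x)⁻¹ =
        if x < β then P3 * L1 else L1 ^ mm x) :
    ParabolicType (rotI α) (rho β) := by
  refine ⟨fun x => (B x)⁻¹, hB.inv, fun _ => 1, fun x => (mm x : ℝ), measurable_const,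
    (measurable_of_countable fun k : ℤ => (k : ℝ)).comp meas_mm, fun _ => one_pos, by simp,
    by simp, ?_⟩
  filter_upwards [hco, ae_mem] with x hx hx1
  rw [rho_eq hx1] at hx
  have e : (B (rotI α x))⁻¹ * rho β x * ((B x)⁻¹)⁻¹ = L1 ^ mm x := by
    rw [rotI_fract h0 h1 hx1, ← hx]
    group
  rw [e, coe_L1_zpow_mm]
  simp

/-- not elliptic type -/
theorem not_elliptic {α β : ℝ} (h0 : 0 < α) (h1 : α < 1) (hα : Irrational α) {B : ℝ → SL2}
    (hB : MeasSL B)
    (hco : ∀ᵐ x ∂μ, B (Int.fract (x + α)) * L1 ^ mm x * (B x)⁻¹ =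
        if x < β then P3 * L1 else L1 ^ mm x) :
    ¬ EllipticType (rotI α) (rho β) := by
  rintro ⟨C, hC, θ, -, hE⟩
  have hmp := fract_mp h0 h1
  set D : ℝ → SL2 := fun x => C x * B x with hD
  have hDm : MeasSL D := hC.mul hB
  have hDc : ∀ᵐ x ∂μ, (D (Int.fract (x + α))).1 * !![1, (mm x : ℝ); 0, 1] =
      !![Real.cos (θ x), -Real.sin (θ x); Real.sin (θ x), Real.cos (θ x)] * (D x).1 := by
    filter_upwards [hco, hE, ae_mem] with x hx hx2 hx1
    rw [rho_eq hx1] at hx
    rw [rotI_fract h0 h1 hx1, ← hx] at hx2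
    rw [← coe_L1_zpow_mm, ← hx2]
    have e1 : (D (Int.fract (x + α))).1 * (L1 ^ mm x).1 = (D (Int.fract (x + α)) * L1 ^ mm x).1 :=
      rfl
    have e2 : (C (Int.fract (x + α)) * (B (Int.fract (x + α)) * L1 ^ mm x * (B x)⁻¹) *
        (C x)⁻¹).1 * (D x).1 = ((C (Int.fract (x + α)) * (B (Int.fract (x + α)) * L1 ^ mm x *
        (B x)⁻¹) * (C x)⁻¹) * D x).1 := rfl
    rw [e1, e2]
    congr 1
    show C (Int.fract (x + α)) * B (Int.fract (x + α)) * L1 ^ mm x =
      (C (Int.fract (x + α)) * (B (Int.fract (x + α)) * L1 ^ mm x * (B x)⁻¹) * (C x)⁻¹) *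
        (C x * B x)
    group
  set a : ℝ → ℝ := fun x => (D x).1 0 0 ^ 2 + (D x).1 1 0 ^ 2 with ha
  set b : ℝ → ℝ := fun x => (D x).1 0 0 * (D x).1 0 1 + (D x).1 1 0 * (D x).1 1 1 with hb
  have ham : Measurable a := ((hDm 0 0).pow_const 2).add ((hDm 1 0).pow_const 2)
  have hbm : Measurable b := ((hDm 0 0).mul (hDm 0 1)).add ((hDm 1 0).mul (hDm 1 1))
  have hapos : ∀ x, 0 < a x := by
    intro x
    have hdet : (D x).1 0 0 * (D x).1 1 1 - (D x).1 0 1 * (D x).1 1 0 = 1 := by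
      have := (D x).2
      rwa [Matrix.det_fin_two] at this
    rw [ha]
    by_contra hcon
    have hcon' : (D x).1 0 0 ^ 2 + (D x).1 1 0 ^ 2 ≤ 0 := not_lt.1 hcon
    have e1 : (D x).1 0 0 = 0 := by nlinarith [sq_nonneg ((D x).1 0 0), sq_nonneg ((D x).1 1 0)]
    have e2 : (D x).1 1 0 = 0 := by nlinarith [sq_nonneg ((D x).1 0 0), sq_nonneg ((D x).1 1 0)]
    rw [e1, e2] at hdet
    norm_num at hdet
  have hf : ∀ᵐ x ∂μ, b (Int.fract (x + α)) / a (Int.fract (x + α)) = b x / a x - mm x := by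
    filter_upwards [hDc] with x hx
    set y := Int.fract (x + α) with hy
    have k00 := congrFun (congrFun hx 0) 0
    have k01 := congrFun (congrFun hx 0) 1
    have k10 := congrFun (congrFun hx 1) 0
    have k11 := congrFun (congrFun hx 1) 1
    simp only [Matrix.mul_apply, Fin.sum_univ_two, Matrix.of_apply, Matrix.cons_val',
      Matrix.cons_val_zero, Matrix.cons_val_one, Matrix.cons_val_fin_one] at k00 k01 k10 k11
    have hcs := Real.sin_sq_add_cos_sq (θ x)
    have hay : a y = a x := by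
      show (D y).1 0 0 ^ 2 + (D y).1 1 0 ^ 2 = (D x).1 0 0 ^ 2 + (D x).1 1 0 ^ 2
      have e1 : (D y).1 0 0 = Real.cos (θ x) * (D x).1 0 0 + -Real.sin (θ x) * (D x).1 1 0 := by
        linarith
      have e2 : (D y).1 1 0 = Real.sin (θ x) * (D x).1 0 0 + Real.cos (θ x) * (D x).1 1 0 := by
        linarith
      rw [e1, e2]
      linear_combination ((D x).1 0 0 ^ 2 + (D x).1 1 0 ^ 2) * hcs
    have hby : mm x * a y + b y = b x := by
      show (mm x : ℝ) * ((D y).1 0 0 ^ 2 + (D y).1 1 0 ^ 2) +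
        ((D y).1 0 0 * (D y).1 0 1 + (D y).1 1 0 * (D y).1 1 1) =
        (D x).1 0 0 * (D x).1 0 1 + (D x).1 1 0 * (D x).1 1 1
      have e0 : (mm x : ℝ) * ((D y).1 0 0 ^ 2 + (D y).1 1 0 ^ 2) +
        ((D y).1 0 0 * (D y).1 0 1 + (D y).1 1 0 * (D y).1 1 1) =
        ((D y).1 0 0 * 1 + (D y).1 0 1 * 0) * ((D y).1 0 0 * (mm x : ℝ) + (D y).1 0 1 * 1) +
        ((D y).1 1 0 * 1 + (D y).1 1 1 * 0) * ((D y).1 1 0 * (mm x : ℝ) + (D y).1 1 1 * 1) := by
          ring
      rw [e0, k00, k01, k10, k11]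
      linear_combination ((D x).1 0 0 * (D x).1 0 1 + (D x).1 1 0 * (D x).1 1 1) * hcs
    have hax := hapos x
    rw [hay] at hby ⊢
    have e3 : b y = b x - mm x * a x := by linarith
    rw [e3, sub_div, mul_div_assoc, div_self hax.ne', mul_one]
  have hmm : ∀ x, mm x = 1 ∨ mm x = -1 := by
    intro x; unfold mm; split_ifs <;> simp
  have hcos := anti_zero hα hmp (F := fun x => Real.cos (Real.pi * (b x / a x)))
    (Real.measurable_cos.comp ((hbm.div ham).const_mul _)) (by
      filter_upwards [hf] with x hx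
      rw [hx]
      rcases hmm x with h | h
      · rw [h]
        have : Real.pi * (b x / a x - ((1 : ℤ) : ℝ)) = Real.pi * (b x / a x) - Real.pi := by
          push_cast; ring
        rw [this, Real.cos_sub_pi]
      · rw [h]
        have : Real.pi * (b x / a x - ((-1 : ℤ) : ℝ)) = Real.pi * (b x / a x) + Real.pi := by
          push_cast; ring
        rw [this, Real.cos_add_pi])
  have hsin := anti_zero hα hmp (F := fun x => Real.sin (Real.pi * (b x / a x)))
    (Real.measurable_sin.comp ((hbm.div ham).const_mul _)) (by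
      filter_upwards [hf] with x hx
      rw [hx]
      rcases hmm x with h | h
      · rw [h]
        have : Real.pi * (b x / a x - ((1 : ℤ) : ℝ)) = Real.pi * (b x / a x) - Real.pi := by
          push_cast; ring
        rw [this, Real.sin_sub_pi]
      · rw [h]
        have : Real.pi * (b x / a x - ((-1 : ℤ) : ℝ)) = Real.pi * (b x / a x) + Real.pi := by
          push_cast; ring
        rw [this, Real.sin_add_pi])
  apply not_ae_false
  filter_upwards [hcos, hsin] with x h2 h3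
  have := Real.sin_sq_add_cos_sq (Real.pi * (b x / a x))
  rw [h2, h3] at this
  norm_num at this

/-- the example -/
theorem exists_example : ∃ α β : ℝ, 1 / 2 < α ∧ α < 3 / 4 ∧ 0 < β ∧ β < 1 / 8 ∧ Irrational α ∧
    ParabolicType (rotI α) (rho β) ∧ ¬ EllipticType (rotI α) (rho β) := by
  obtain ⟨ha, hb⟩ := liou_bounds
  have hmp := fract_mp (α := liouvilleNumber 4) (by linarith) (by linarith)
  obtain ⟨B, β, hB, hβ0, hβ1, -, hco⟩ := limitSg liou_irr goodA_liouville hmp (fun _ => 0)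
  exact ⟨liouvilleNumber 4, β, ha, hb, hβ0, hβ1, liou_irr,
    parabolic (by linarith) (by linarith) hB hco,
    not_elliptic (by linarith) (by linarith) liou_irr hB hco⟩

end Pool.Agent.U924.Par
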