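import Pool.Agent.Q66.IetLiou3

/-!
# One step of the construction with a unipotent base cocycle

The base cocycle over the rotation by `α` is `a ^ mm x` with `mm = 1` on the first half of the
circle and `mm = -1` on the second half.
-/

open MeasureTheory Set Filter Topology

namespace Pool.Agent.U924.Par

open Q66.Iet

/-- `1` on `[0,1/2) + ℤ`, `-1` on `[1/2,1) + ℤ` -/
noncomputable def mm (x : ℝ) : ℤ := if Int.fract x < 1 / 2 then 1 else -1

theorem mm_int (x : ℝ) (k : ℤ) : mm (x + k) = mm x := by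
  unfold mm; rw [Int.fract_add_intCast]

theorem mm_half (x : ℝ) : mm (x + 1 / 2) = -mm x := by
  unfold mm
  have f0 := Int.fract_nonneg x
  have f1 := Int.fract_lt_one x
  have e0 : x + 1 / 2 = (Int.fract x + 1 / 2) + (⌊x⌋ : ℤ) := by
    rw [← Int.self_sub_floor]; ring
  by_cases h : Int.fract x < 1 / 2
  · have : Int.fract (x + 1 / 2) = Int.fract x + 1 / 2 := by
      rw [e0, Int.fract_add_intCast, Int.fract_eq_self.2 ⟨by linarith, by linarith⟩]
    rw [if_pos h, this, if_neg (by linarith)]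
  · have : Int.fract (x + 1 / 2) = Int.fract x - 1 / 2 := by
      have e1 : Int.fract x + 1 / 2 = (Int.fract x - 1 / 2) + 1 := by ring
      rw [e0, Int.fract_add_intCast, e1, Int.fract_add_one,
        Int.fract_eq_self.2 ⟨by linarith, by linarith⟩]
    rw [if_neg h, this, if_pos (by linarith)]
    rfl

theorem mm_odd (x : ℝ) {p : ℤ} (hp : Odd p) : mm (x + p / 2) = -mm x := by
  obtain ⟨s, rfl⟩ := hp
  have : x + ((2 * s + 1 : ℤ) : ℝ) / 2 = (x + 1 / 2) + (s : ℤ) := by push_cast; ring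
  rw [this, mm_int, mm_half]

theorem mm_near {z θ : ℝ} (h0 : 0 ≤ θ) (h1 : θ ≤ 1)
    (h : ∀ k : ℤ, ¬ ((k : ℝ) - θ ≤ 2 * z ∧ 2 * z < k)) : mm (z + θ / 2) = mm z := by
  have f0 := Int.fract_nonneg z
  have f1 := Int.fract_lt_one z
  have ez : z = Int.fract z + (⌊z⌋ : ℤ) := by rw [← Int.self_sub_floor]; ring
  have e0 : z + θ / 2 = (Int.fract z + θ / 2) + (⌊z⌋ : ℤ) := by
    rw [← Int.self_sub_floor]; ring
  unfold mm
  by_cases hz : Int.fract z < 1 / 2
  · have h2 : Int.fract z + θ / 2 < 1 / 2 := by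
      by_contra hcon
      push Not at hcon
      apply h (2 * ⌊z⌋ + 1)
      push_cast
      constructor <;> linarith
    have : Int.fract (z + θ / 2) = Int.fract z + θ / 2 := by
      rw [e0, Int.fract_add_intCast, Int.fract_eq_self.2 ⟨by linarith, by linarith⟩]
    rw [if_pos hz, this, if_pos h2]
  · have h2 : Int.fract z + θ / 2 < 1 := by
      by_contra hcon
      push Not at hcon
      apply h (2 * ⌊z⌋ + 2)
      push_cast
      constructor <;> linarith
    have : Int.fract (z + θ / 2) = Int.fract z + θ / 2 := by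
      rw [e0, Int.fract_add_intCast, Int.fract_eq_self.2 ⟨by linarith, by linarith⟩]
    rw [if_neg hz, this, if_neg (by linarith)]

/-- the Birkhoff sums of `mm` -/
noncomputable def SS (α : ℝ) (n : ℕ) (x : ℝ) : ℤ := ∑ j ∈ Finset.range n, mm (x + j * α)

theorem SS_succ (α : ℝ) (n : ℕ) (x : ℝ) : SS α (n + 1) x = SS α n x + mm (x + n * α) := by
  unfold SS; rw [Finset.sum_range_succ]

theorem SS_zero_of {α θ z : ℝ} {M : ℕ} {p : ℤ} (hp : Odd p) (h0 : 0 ≤ θ) (h1 : θ ≤ 1)
    (hM : 2 * M * α = p + θ)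
    (h : ∀ j < M, ∀ k : ℤ, ¬ ((k : ℝ) - θ ≤ 2 * (z + j * α) ∧ 2 * (z + j * α) < k)) :
    SS α (2 * M) z = 0 := by
  unfold SS
  rw [two_mul, Finset.sum_range_add]
  rw [← Finset.sum_add_distrib]
  apply Finset.sum_eq_zero
  intro j hj
  have h2 := mm_near h0 h1 (h j (Finset.mem_range.1 hj))
  have e : z + ((M + j : ℕ) : ℝ) * α = (z + j * α + θ / 2) + (p : ℝ) / 2 := by
    push_cast
    linear_combination (1 / 2 : ℝ) * hM
  rw [e, mm_odd _ hp, h2]
  ring

section Group

variable {G : Type*} [Group G]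

/-- the ordered product of the corrections -/
noncomputable def KK (α w θ : ℝ) (a g : G) : ℕ → ℝ → G
  | 0, _ => 1
  | n + 1, x => KK α w θ a g n x *
      (a ^ SS α n (x - n * α) * qv θ g (vp α w (n + 1) x) * (a ^ SS α n (x - n * α))⁻¹)

theorem KK_shift (α w θ : ℝ) (a g : G) (n : ℕ) (x : ℝ) :
    KK α w θ a g (n + 1) (x + α) =
      qv θ g (vp α w 0 x) * (a ^ mm x * KK α w θ a g n x * (a ^ mm x)⁻¹) := by
  induction n with
  | zero =>
    have : SS α 0 (x + α - ((0 : ℕ) : ℝ) * α) = 0 := by simp [SS]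
    simp only [KK, this, zpow_zero, one_mul, inv_one, mul_one, mul_inv_cancel]
    rw [vp_shift]
  | succ n ih =>
    have e1 : x + α - ((n + 1 : ℕ) : ℝ) * α = x - n * α := by push_cast; ring
    have e2 : x - n * α + n * α = x := by ring
    rw [KK, ih, vp_shift, KK, e1, SS_succ, e2, add_comm (SS α n (x - n * α)) (mm x), zpow_add]
    group

theorem KK_one {α w θ : ℝ} {a g : G} {n : ℕ} {x : ℝ}
    (h : ∀ j, 0 < j → j ≤ n → 2 * θ ≤ vp α w j x) (hθ : 0 < θ) : KK α w θ a g n x = 1 := by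
  induction n with
  | zero => rfl
  | succ n ih =>
    rw [KK, ih fun j h1 h2 => h j h1 (h2.trans (Nat.le_succ n))]
    have h1 := h (n + 1) (Nat.succ_pos n) le_rfl
    unfold qv
    rw [if_neg (by linarith), if_neg (by linarith)]
    group

/-- the cocycle identity of one step -/
theorem step_id' {α w θ : ℝ} {a g : G} {N : ℕ} {p : ℤ} (hN : 0 < N)
    (hg : g ^ 3 = 1) (hθ : 0 < θ) (hθ1 : 3 * θ ≤ 1) (hNα : N * α = p + θ)
    (hsep : ∀ j : ℕ, 0 < j → j < N → ∀ m : ℤ, 3 * θ ≤ |j * α - m|)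
    (hS : ∀ x, vp α w 0 x < 2 * θ → SS α N (x + α) = 0) (x : ℝ) :
    KK α w θ a g N (x + α) * a ^ mm x * (KK α w θ a g N x)⁻¹ =
      (if vp α w 0 x < 3 * θ then g else 1) * a ^ mm x := by
  obtain ⟨n, rfl⟩ : ∃ n, N = n + 1 := ⟨N - 1, by omega⟩
  have hvN : vp α w (n + 1) x = Int.fract (vp α w 0 x - θ) := by
    unfold vp
    have : x - w - ((n + 1 : ℕ) : ℝ) * α = (x - w - ((0 : ℕ) : ℝ) * α - θ) - p := by
      rw [hNα]; push_cast; ring
    have h5 : Int.fract (x - w - ((0 : ℕ) : ℝ) * α) - θ =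
        (x - w - ((0 : ℕ) : ℝ) * α - θ) - (⌊x - w - ((0 : ℕ) : ℝ) * α⌋ : ℤ) := by
      rw [← Int.self_sub_floor (x - w - ((0 : ℕ) : ℝ) * α)]; ring
    rw [this, Int.fract_sub_intCast, h5, Int.fract_sub_intCast]
  set J := a ^ mm x with hJ
  have hAq : a ^ SS α n (x - n * α) * qv θ g (vp α w (n + 1) x) * (a ^ SS α n (x - n * α))⁻¹ =
      J⁻¹ * qv θ g (vp α w (n + 1) x) * (J⁻¹)⁻¹ := by
    by_cases hv : vp α w (n + 1) x < 2 * θ
    · have e1 : vp α w 0 (x - ((n + 1 : ℕ) : ℝ) * α) = vp α w (n + 1) x := by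
        unfold vp; congr 1; push_cast; ring
      have h1 := hS (x - ((n + 1 : ℕ) : ℝ) * α) (by rw [e1]; exact hv)
      have e2 : x - ((n + 1 : ℕ) : ℝ) * α + α = x - n * α := by push_cast; ring
      rw [e2, SS_succ] at h1
      have e3 : x - n * α + n * α = x := by ring
      rw [e3] at h1
      have e4 : SS α n (x - n * α) = -mm x := by omega
      rw [e4, zpow_neg]
    · have e1 : qv θ g (vp α w (n + 1) x) = 1 := by
        unfold qv; rw [if_neg (by linarith), if_neg hv]
      rw [e1]; group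
  rw [KK_shift, KK, hAq, ← hJ]
  set v0 := vp α w 0 x with hv0
  have hv00 : 0 ≤ v0 := Int.fract_nonneg _
  have hv01 : v0 < 1 := Int.fract_lt_one _
  set K := KK α w θ a g n x with hK
  by_cases h3 : v0 < 3 * θ
  · rw [if_pos h3]
    have hK1 : K = 1 := by
      apply KK_one _ hθ
      intro j h1 h2
      have := vp_sep (hsep j h1 (by omega)) (hv0 ▸ h3)
      linarith
    rw [hK1]
    by_cases h1 : v0 < θ
    · have h4 : vp α w (n + 1) x = v0 - θ + 1 := by
        rw [hvN, ← Int.fract_add_one, Int.fract_eq_self.2 ⟨by linarith, by linarith⟩]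
      have e1 : qv θ g v0 = g := by unfold qv; rw [if_pos h1]
      have e2 : qv θ g (vp α w (n + 1) x) = 1 := by
        unfold qv; rw [h4, if_neg (by linarith), if_neg (by linarith)]
      rw [e1, e2]; group
    · have h4 : vp α w (n + 1) x = v0 - θ := by
        rw [hvN, Int.fract_eq_self.2 ⟨by linarith, by linarith⟩]
      by_cases h2 : v0 < 2 * θ
      · have e1 : qv θ g v0 = g ^ 2 := by unfold qv; rw [if_neg h1, if_pos h2]
        have e2 : qv θ g (vp α w (n + 1) x) = g := by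
          unfold qv; rw [h4, if_pos (by linarith)]
        rw [e1, e2, pow_two]; group
      · have e1 : qv θ g v0 = 1 := by unfold qv; rw [if_neg h1, if_neg h2]
        have e2 : qv θ g (vp α w (n + 1) x) = g ^ 2 := by
          unfold qv; rw [h4, if_neg (by linarith), if_pos (by linarith)]
        have e3 : (g ^ 2)⁻¹ = g := by
          rw [inv_eq_iff_mul_eq_one, ← pow_succ]; exact hg
        rw [e1, e2]
        calc 1 * (J * 1 * J⁻¹) * J * (1 * (J⁻¹ * g ^ 2 * (J⁻¹)⁻¹))⁻¹ = (g ^ 2)⁻¹ * J := by group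
          _ = g * J := by rw [e3]
  · rw [if_neg h3]
    have h4 : vp α w (n + 1) x = v0 - θ := by
      rw [hvN, Int.fract_eq_self.2 ⟨by linarith, by linarith⟩]
    have e1 : qv θ g v0 = 1 := by
      unfold qv; rw [if_neg (by linarith), if_neg (by linarith)]
    have e2 : qv θ g (vp α w (n + 1) x) = 1 := by
      unfold qv; rw [h4, if_neg (by linarith), if_neg (by linarith)]
    rw [e1, e2]; group

theorem rlc_mm : RLC mm := by
  intro x
  have h1 := fract_right x 0
  by_cases ht : Int.fract x < 1 / 2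
  · have h2 : Iio (x + (1 / 2 - Int.fract x)) ∈ 𝓝 x := Iio_mem_nhds (by linarith)
    filter_upwards [h1, mem_nhdsWithin_of_mem_nhds h2] with y hy hy2
    have hy2' : y < x + (1 / 2 - Int.fract x) := hy2
    rw [sub_zero, sub_zero] at hy
    unfold mm
    rw [if_pos ht, if_pos (by rw [hy]; linarith)]
  · filter_upwards [h1, self_mem_nhdsWithin] with y hy hy2
    have hy2' : x ≤ y := hy2
    rw [sub_zero, sub_zero] at hy
    unfold mm
    rw [if_neg ht, if_neg (by rw [hy]; linarith)]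

theorem RLC.shift {H : Type*} {f : ℝ → H} (hf : RLC f) (c : ℝ) : RLC fun x => f (x + c) := by
  intro x
  have h1 := hf (x + c)
  have h2 : Tendsto (fun y : ℝ => y + c) (𝓝[≥] x) (𝓝[≥] (x + c)) := by
    apply tendsto_nhdsWithin_of_tendsto_nhds_of_eventually_within
    · exact ((continuous_id.add continuous_const).tendsto x).mono_left nhdsWithin_le_nhds
    · filter_upwards [self_mem_nhdsWithin] with y hy
      have hy' : x ≤ y := hy
      show x + c ≤ y + c
      linarith
  exact h2.eventually h1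

theorem rlc_SS (α : ℝ) (n : ℕ) : RLC (SS α n) := by
  induction n with
  | zero => intro x; exact Eventually.of_forall fun y => by simp [SS]
  | succ n ih =>
    intro x
    filter_upwards [ih x, RLC.shift rlc_mm (n * α) x] with y h1 h2
    rw [SS_succ, SS_succ, h1]
    have h2' : mm (y + n * α) = mm (x + n * α) := h2
    rw [h2']

theorem rlc_KK (α w θ : ℝ) (a g : G) (n : ℕ) : RLC (KK α w θ a g n) := by
  induction n with
  | zero => intro x; exact Eventually.of_forall fun _ => rfl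
  | succ n ih =>
    intro x
    filter_upwards [ih x, rlc_qv α w θ g (n + 1) x, RLC.shift (rlc_SS α n) (-(n * α)) x] with y h1 h2 h3
    have h2' : qv θ g (vp α w (n + 1) y) = qv θ g (vp α w (n + 1) x) := h2
    have h3' : SS α n (y - n * α) = SS α n (x - n * α) := h3
    rw [KK, KK, h1, h2', h3']

theorem SS_per (α : ℝ) (n : ℕ) (x : ℝ) : SS α n (x + 1) = SS α n x := by
  unfold SS
  refine Finset.sum_congr rfl fun j _ => ?_
  have : x + 1 + j * α = (x + j * α) + ((1 : ℤ) : ℝ) := by push_cast; ring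
  rw [this, mm_int]

theorem KK_per (α w θ : ℝ) (a g : G) (n : ℕ) (x : ℝ) :
    KK α w θ a g n (x + 1) = KK α w θ a g n x := by
  induction n with
  | zero => rfl
  | succ n ih =>
    have : x + 1 - n * α = (x - n * α) + 1 := by ring
    rw [KK, KK, ih, vp_per, this, SS_per]

end Group

theorem meas_mm : Measurable mm := by
  unfold mm
  exact Measurable.ite (measurableSet_lt measurable_fract measurable_const) measurable_const
    measurable_const

theorem meas_SS (α : ℝ) (n : ℕ) : Measurable (SS α n) := by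
  unfold SS
  exact Finset.measurable_sum _ fun j _ => meas_mm.comp (by fun_prop)

theorem measSL_zpow (a : SL2) {f : ℝ → ℤ} (hf : Measurable f) : MeasSL fun x => a ^ f x := by
  intro i j
  exact (measurable_of_countable fun k : ℤ => (a ^ k).1 i j).comp hf

theorem measSL_KK (α w θ : ℝ) (a g : SL2) (n : ℕ) : MeasSL (KK α w θ a g n) := by
  induction n with
  | zero => exact measSL_const 1
  | succ n ih =>
    have h1 : MeasSL fun x => a ^ SS α n (x - n * α) :=
      measSL_zpow a ((meas_SS α n).comp (by fun_prop))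
    exact ih.mul ((h1.mul (measSL_qv α w θ g (n + 1))).mul h1.inv)

theorem mu_KK {α w θ : ℝ} (hθ : 0 < θ) (a g : SL2) (n : ℕ) :
    μ {x | KK α w θ a g n x ≠ 1} ≤ ENNReal.ofReal (4 * n * θ) := by
  induction n with
  | zero =>
    have : {x | KK α w θ a g 0 x ≠ 1} = ∅ := by
      ext x; simp [KK]
    rw [this]; simp
  | succ n ih =>
    have hsub : {x | KK α w θ a g (n + 1) x ≠ 1} ⊆
        {x | KK α w θ a g n x ≠ 1} ∪ {x | vp α w (n + 1) x < 2 * θ} := by
      intro x hx
      by_contra hno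
      simp only [mem_union, mem_ofPred_eq, not_or, not_not, not_lt] at hno
      apply hx
      rw [KK, hno.1]
      unfold qv
      rw [if_neg (by linarith [hno.2]), if_neg (by linarith [hno.2])]
      group
    refine (measure_mono hsub).trans ((measure_union_le _ _).trans ?_)
    have e : (4 : ℝ) * ((n + 1 : ℕ) : ℝ) * θ = 4 * n * θ + 4 * θ := by push_cast; ring
    rw [e, ENNReal.ofReal_add (by positivity) (by positivity)]
    exact add_le_add ih (mu_vp hθ _)

theorem sep10 {α θ : ℝ} {N p : ℕ} (hcop : N.Coprime p) (hθ : 0 < θ)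
    (h4 : 11 * N * θ ≤ 1) (hNα : N * α = p + θ) {j : ℕ} (hj : 0 < j) (hjN : j < N) (m : ℤ) :
    10 * θ ≤ |j * α - m| := by
  by_contra h
  push Not at h
  have hN : (0 : ℝ) < N := by
    have : 0 < N := by omega
    exact_mod_cast this
  have hjN' : (j : ℝ) < N := by exact_mod_cast hjN
  have hj' : (0 : ℝ) < j := by exact_mod_cast hj
  have h1 : ((j * p - m * N : ℤ) : ℝ) = N * (j * α - m) - j * θ := by
    push_cast
    linear_combination (-(j : ℝ)) * hNα
  have h2 : |((j * p - m * N : ℤ) : ℝ)| < 1 := by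
    rw [h1]
    rw [abs_lt] at h ⊢
    constructor <;> nlinarith
  have h3 : (j * p - m * N : ℤ) = 0 := by
    rw [← Int.cast_abs] at h2
    have : |(j * p - m * N : ℤ)| < 1 := by exact_mod_cast h2
    exact Int.abs_lt_one_iff.1 this
  have h4 : (N : ℤ) ∣ j * p := ⟨m, by linarith⟩
  have h5 : N ∣ j * p := by exact_mod_cast h4
  have h6 : N ∣ j := hcop.dvd_of_dvd_mul_right h5
  exact absurd (Nat.le_of_dvd hj h6) (by omega)

theorem gap {α : ℝ} (hα : Irrational α) (K : ℕ) :
    ∃ c : ℝ, 0 < c ∧ ∀ q : ℕ, 0 < q → q ≤ K → ∀ m : ℤ, c ≤ |q * α - m| := by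
  induction K with
  | zero => exact ⟨1, one_pos, fun q h1 h2 => by omega⟩
  | succ K ih =>
    obtain ⟨c, hc, h⟩ := ih
    set d := |((K + 1 : ℕ) : ℝ) * α - round (((K + 1 : ℕ) : ℝ) * α)| with hd
    have hd0 : 0 < d := by
      rw [hd, abs_pos]
      intro h0
      exact (hα.natCast_mul (Nat.succ_ne_zero K)).ne_int (round (((K + 1 : ℕ) : ℝ) * α))
        (by linarith)
    refine ⟨min c d, lt_min hc hd0, fun q h1 h2 m => ?_⟩
    rcases Nat.lt_or_ge K q with h3 | h3
    · have : q = K + 1 := by omega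
      subst this
      exact (min_le_right _ _).trans (round_le _ m)
    · exact (min_le_left _ _).trans (h q h1 h3 m)

/-- the Birkhoff sum over one return vanishes on the window -/
theorem SS_window {α θ c : ℝ} {M k : ℕ} {p : ℕ} {l : ℤ} (hcop : (2 * M).Coprime p)
    (hθ : 0 < θ) (hM : 0 < M) (h11 : 11 * ((2 * M : ℕ) : ℝ) * θ ≤ 1)
    (hNα : ((2 * M : ℕ) : ℝ) * α = p + θ)
    (hc : 10 * θ ≤ c) (hgap : ∀ q : ℕ, 0 < q → q ≤ 2 * k → ∀ m : ℤ, c ≤ |q * α - m|)
    {x : ℝ} (hx : vp α (k * α - l) 0 x < 2 * θ) : SS α (2 * M) (x + α) = 0 := by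
  have hM' : (1 : ℝ) ≤ ((2 * M : ℕ) : ℝ) := by
    have : 1 ≤ 2 * M := by omega
    exact_mod_cast this
  have hθ11 : 11 * θ ≤ 1 := by nlinarith
  have hodd : Odd (p : ℤ) := by
    have h1 : Odd p := by
      rw [← Nat.coprime_two_left]
      exact Nat.Coprime.coprime_dvd_left ⟨M, rfl⟩ hcop
    exact_mod_cast h1
  set t := vp α (k * α - l) 0 x with ht
  have ht0 : 0 ≤ t := Int.fract_nonneg _
  have hxt : x = k * α - l + t + ⌊x - (k * α - l) - ((0 : ℕ) : ℝ) * α⌋ := by
    have : t = (x - (k * α - l) - ((0 : ℕ) : ℝ) * α) -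
        ⌊x - (k * α - l) - ((0 : ℕ) : ℝ) * α⌋ := by
      rw [ht]; unfold vp; rw [Int.self_sub_floor]
    rw [this]; push_cast; ring
  set fl := ⌊x - (k * α - l) - ((0 : ℕ) : ℝ) * α⌋ with hfl
  refine SS_zero_of (θ := θ) (p := (p : ℤ)) hodd hθ.le (by linarith) (by push_cast at hNα ⊢; exact hNα) ?_
  rintro j hj m ⟨h1, h2⟩
  -- `q = 2 (k + j + 1)`
  have e : 2 * (x + α + j * α) = ((2 * (k + j + 1) : ℕ) : ℝ) * α + 2 * t + ((2 * (fl - l) : ℤ) : ℝ) := by
    rw [hxt]; push_cast; ring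
  rw [e] at h1 h2
  set m2 : ℤ := m - 2 * (fl - l) with hm2
  have h3 : -(5 * θ) < ((2 * (k + j + 1) : ℕ) : ℝ) * α - m2 := by
    rw [hm2]; push_cast at h1 ⊢; linarith
  have h4 : ((2 * (k + j + 1) : ℕ) : ℝ) * α - m2 < 0 := by
    rw [hm2]; push_cast at h2 ⊢; linarith
  rcases Nat.lt_or_ge (2 * (k + j + 1)) (2 * M) with h5 | h5
  · have h6 := sep10 hcop hθ h11 hNα (j := 2 * (k + j + 1)) (by omega) h5 m2
    rw [abs_of_neg h4] at h6
    linarith
  · obtain ⟨q, hq⟩ := Nat.exists_eq_add_of_le h5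
    have hq2 : q ≤ 2 * k := by omega
    have e5 : ((2 * (k + j + 1) : ℕ) : ℝ) * α = p + θ + q * α := by
      rw [hq, Nat.cast_add, add_mul, hNα]
    rw [e5] at h3 h4
    rcases Nat.eq_zero_or_pos q with h7 | h7
    · rw [h7] at h3 h4
      push_cast at h3 h4
      have h8 : (((p : ℤ) - m2 : ℤ) : ℝ) < 0 := by push_cast; linarith
      have h9 : (-1 : ℝ) < (((p : ℤ) - m2 : ℤ) : ℝ) := by push_cast; linarith
      have h8' : (p : ℤ) - m2 < 0 := by exact_mod_cast h8
      have h9' : -1 < (p : ℤ) - m2 := by exact_mod_cast h9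
      omega
    · have h8 := hgap q h7 hq2 (m2 - p)
      have h9 : (q : ℝ) * α - ((m2 - p : ℤ) : ℝ) < 0 := by push_cast; linarith
      rw [abs_of_neg h9] at h8
      push_cast at h8
      linarith

end Pool.Agent.U924.Par
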